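import Pool.Agent.V7H75.RB.Main

/-!
# The lower bound is larger than every polynomial
-/

set_option autoImplicit false

namespace Pool.Agent.V7H75.RB

open Filter Topology

lemma pow_lt_two_pow (k : ℕ) : ∃ s₀ : ℕ, ∀ s ≥ s₀, s ^ k < 2 ^ s := by
  have h := tendsto_pow_const_div_const_pow_of_one_lt k (r := 2) (by norm_num)
  have h1 : ∀ᶠ n : ℕ in atTop, (n : ℝ) ^ k / 2 ^ n < 1 :=
    h.eventually (gt_mem_nhds (by norm_num))
  obtain ⟨s₀, h2⟩ := eventually_atTop.1 h1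
  refine ⟨s₀, fun s hs => ?_⟩
  have h3 := h2 s hs
  rw [div_lt_one (by positivity)] at h3
  exact_mod_cast h3

theorem superpoly (c : ℕ) : ∃ n₀ : ℕ, ∀ n ≥ n₀,
    n ^ c + c < 2 ^ ((Nat.sqrt (n / 6) - 1) / 4) := by
  obtain ⟨s₀, hs⟩ := pow_lt_two_pow (4 * c + 1)
  refine ⟨6 * (4 * (s₀ + c + 20) + 5) ^ 2, fun n hn => ?_⟩
  set Q := Nat.sqrt (n / 6) with hQ
  set s := (Q - 1) / 4 with hs'
  have h1 : n / 6 < (Q + 1) * (Q + 1) := Nat.lt_succ_sqrt (n / 6)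
  have h2 : Q + 1 ≤ 4 * s + 5 := by omega
  have h3 : (Q + 1) * (Q + 1) ≤ (4 * s + 5) ^ 2 := by
    rw [sq]; exact Nat.mul_le_mul h2 h2
  have h4 : n < 6 * (4 * s + 5) ^ 2 := by omega
  have h5 : s₀ + c + 20 < s := by
    by_contra hcon
    push Not at hcon
    have : (4 * s + 5) ^ 2 ≤ (4 * (s₀ + c + 20) + 5) ^ 2 := Nat.pow_le_pow_left (by omega) 2
    omega
  have h6 : 6 * (4 * s + 5) ^ 2 ≤ s ^ 4 := by
    have e1 : 4 * s + 5 ≤ 5 * s := by omega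
    have e2 : (4 * s + 5) ^ 2 ≤ (5 * s) ^ 2 := Nat.pow_le_pow_left e1 2
    have e3 : 150 ≤ s ^ 2 := by nlinarith
    calc 6 * (4 * s + 5) ^ 2 ≤ 6 * (5 * s) ^ 2 := Nat.mul_le_mul_left 6 e2
      _ = 150 * s ^ 2 := by ring
      _ ≤ s ^ 2 * s ^ 2 := Nat.mul_le_mul_right _ e3
      _ = s ^ 4 := by ring
  have h7 : n ^ c ≤ s ^ (4 * c) := by
    calc n ^ c ≤ (s ^ 4) ^ c := Nat.pow_le_pow_left (by omega) c
      _ = s ^ (4 * c) := by rw [← pow_mul]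
  have h8 : n ^ c + c ≤ s ^ (4 * c + 1) := by
    have e1 : 1 ≤ s ^ (4 * c) := Nat.one_le_pow _ _ (by omega)
    have e2 : s ^ (4 * c + 1) = s ^ (4 * c) * s := by ring
    have e3 : s ^ (4 * c) * (c + 1) ≤ s ^ (4 * c) * s := Nat.mul_le_mul_left _ (by omega)
    have e4 : s ^ (4 * c) * (c + 1) = s ^ (4 * c) * c + s ^ (4 * c) := by ring
    have e5 : c ≤ s ^ (4 * c) * c := Nat.le_mul_of_pos_left c (by omega)
    omega
  exact lt_of_le_of_lt h8 (hs s (by omega))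

end Pool.Agent.V7H75.RB
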