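import Pool.Agent.V7H75.RB.Defs

/-!
# The function and the combinatorial part of the lower bound
-/

set_option autoImplicit false

namespace Pool.Agent.V7H75.RB

open Finset

/-- The variables: six blocks, each a square matrix of order `q`. -/
abbrev Cell (q : ℕ) := Fin 6 × Fin q × Fin q

/-- Row `i` of block `j` consists of ones. -/
def Sel {q : ℕ} (y : Cell q → Bool) (j : Fin 6) (i : Fin q) : Prop := ∀ l, y (j, i, l) = true

/-- A map of `Fin q` onto the six blocks, if `6 ≤ q`. -/
def blk {q : ℕ} (t : Fin q) : Fin 6 := if h : t.val < 6 then ⟨t.val, h⟩ else 0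

/-- The cell addressed by six row numbers. -/
def addr {q : ℕ} [NeZero q] (a : Fin 6 → Fin q) : Cell q :=
  (blk (a 4 + a 5), a 0 + a 1, a 2 + a 3)

/-- Some block has two rows of ones, or each block has a row of ones and the addressed cell is a
one. -/
def FP {q : ℕ} [NeZero q] (y : Cell q → Bool) : Prop :=
  (∃ j i i', i ≠ i' ∧ Sel y j i ∧ Sel y j i') ∨
    ∃ a : Fin 6 → Fin q, (∀ j, Sel y j (a j)) ∧ y (addr a) = true

variable {n q : ℕ}

/-- the number of assigned variables in a row -/
def cnt (e : Cell q → Fin n) (p : Fin n → Option Bool) (j : Fin 6) (i : Fin q) : ℕ :=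
  (univ.filter (fun l => (p (e (j, i, l))).isSome = true)).card

/-- the decided rows -/
def dec (e : Cell q → Fin n) (p : Fin n → Option Bool) : Finset (Fin 6 × Fin q) :=
  univ.filter (fun r => q ≤ cnt e p r.1 r.2 + 1)

/-- the invariant of the adversary -/
structure Inv (e : Cell q → Fin n) (p : Fin n → Option Bool) (k : ℕ) : Prop where
  c1 : ∀ j i, cnt e p j i + 2 ≤ q → ∀ l, p (e (j, i, l)) ≠ some false
  c2 : ∀ j i, cnt e p j i = q → ∃ l, p (e (j, i, l)) = some false
  c3 : (dec e p).card = k

/-- `x` extends `p` -/
def Ext (x : Fin n → Bool) (p : Fin n → Option Bool) : Prop := ∀ v b, p v = some b → x v = b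

lemma cnt_le (e : Cell q → Fin n) (p : Fin n → Option Bool) (j : Fin 6) (i : Fin q) :
    cnt e p j i ≤ q := by
  unfold cnt
  exact (card_le_univ _).trans (by simp)

lemma cnt_update_same {e : Cell q → Fin n} (he : Function.Injective e)
    {p : Fin n → Option Bool} {j : Fin 6} {i l : Fin q} (hp : p (e (j, i, l)) = none) (b : Bool) :
    cnt e (Function.update p (e (j, i, l)) (some b)) j i = cnt e p j i + 1 := by
  unfold cnt
  rw [← card_insert_of_notMem (s := univ.filter (fun l' => (p (e (j, i, l'))).isSome = true))
    (a := l)]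
  · congr 1
    ext l'
    simp only [mem_filter, mem_univ, true_and, mem_insert]
    by_cases h : l' = l
    · subst h; simp
    · have h1 : e (j, i, l') ≠ e (j, i, l) := fun h2 => h (by
        have := he h2
        simpa using this)
      simp [Function.update_of_ne h1, h]
  · simp [hp]

lemma cnt_update_other {e : Cell q → Fin n}
    {p : Fin n → Option Bool} {v : Fin n} {j : Fin 6} {i : Fin q}
    (h : ∀ l, e (j, i, l) ≠ v) (o : Option Bool) :
    cnt e (Function.update p v o) j i = cnt e p j i := by
  unfold cnt
  congr 1
  ext l'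
  simp [Function.update_of_ne (h l')]

/-- at most `k` rows of a block are decided -/
lemma undec {e : Cell q → Fin n} {p : Fin n → Option Bool} {k : ℕ} (h : Inv e p k) (j : Fin 6) :
    (univ.filter (fun i : Fin q => ¬ (cnt e p j i + 2 ≤ q))).card ≤ k := by
  rw [← h.c3]
  have : (univ.filter (fun i : Fin q => ¬ (cnt e p j i + 2 ≤ q))).map
      ⟨fun i => (j, i), fun a b h => by simpa using h⟩ ⊆ dec e p := by
    intro r hr
    simp only [mem_map, mem_filter, mem_univ, true_and, Function.Embedding.coeFn_mk] at hr
    obtain ⟨i, hi, rfl⟩ := hr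
    simp only [dec, mem_filter, mem_univ, true_and]
    omega
  have h2 := card_le_card this
  rwa [card_map] at h2

/-- sums of two large sets of residues -/
lemma sum_cover [NeZero q] {A B : Finset (Fin q)} (h : q < A.card + B.card) (t : Fin q) :
    ∃ a ∈ A, ∃ b ∈ B, a + b = t := by
  by_contra hcon
  push Not at hcon
  have h1 : Disjoint (A.map ⟨fun a => t - a, fun a b h => by simpa using h⟩) B := by
    rw [disjoint_left]
    intro x hx hxB
    simp only [mem_map, Function.Embedding.coeFn_mk] at hx
    obtain ⟨a, ha, rfl⟩ := hx
    exact hcon a ha _ hxB (by abel)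
  have h2 := card_union_of_disjoint h1
  rw [card_map] at h2
  have h3 := card_le_univ ((A.map ⟨fun a => t - a, fun a b h => by simpa using h⟩) ∪ B)
  rw [Fintype.card_fin] at h3
  omega

lemma exists_addr [NeZero q] (hq : 6 ≤ q) (L : Fin 6 → Finset (Fin q))
    (hL : ∀ j, q < 2 * (L j).card) (c : Cell q) :
    ∃ a : Fin 6 → Fin q, (∀ j, a j ∈ L j) ∧ addr a = c := by
  obtain ⟨j0, i0, l0⟩ := c
  have hh : ∀ j j', q < (L j).card + (L j').card := fun j j' => by
    have := hL j; have := hL j'; omega
  obtain ⟨a0, h0, a1, h1, e1⟩ := sum_cover (hh 0 1) i0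
  obtain ⟨a2, h2, a3, h3, e2⟩ := sum_cover (hh 2 3) l0
  obtain ⟨a4, h4, a5, h5, e3⟩ := sum_cover (hh 4 5) (⟨j0.val, by omega⟩ : Fin q)
  refine ⟨![a0, a1, a2, a3, a4, a5], ?_, ?_⟩
  · intro j
    fin_cases j <;> simpa
  · simp only [addr]
    have : blk (![a0, a1, a2, a3, a4, a5] 4 + ![a0, a1, a2, a3, a4, a5] 5) = j0 := by
      show blk (a4 + a5) = j0
      rw [e3]
      simp [blk]
    rw [this]
    show (j0, a0 + a1, a2 + a3) = _
    rw [e1, e2]

lemma sel_iff {e : Cell q → Fin n} (he : Function.Injective e)
    {p : Fin n → Option Bool} {k : ℕ} (hI : Inv e p k) (a : Fin 6 → Fin q)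
    (ha : ∀ j, cnt e p j (a j) + 2 ≤ q) (z : Fin n → Bool)
    (hz : ∀ c : Cell q, z (e c) = decide (c.2.1 = a c.1)) (j : Fin 6) (i : Fin q) :
    Sel (fun c => (p (e c)).getD (z (e c))) j i ↔ i = a j := by
  constructor
  · intro h
    by_contra hne
    by_cases h1 : ∃ l, p (e (j, i, l)) = none
    · obtain ⟨l, hl⟩ := h1
      have := h l
      simp only [hl, Option.getD_none, hz, decide_eq_true_eq] at this
      exact hne this
    · push Not at h1
      have h2 : cnt e p j i = q := by
        unfold cnt
        rw [filter_true_of_mem]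
        · simp
        · intro l _
          exact Option.isSome_iff_ne_none.2 (h1 l)
      obtain ⟨l, hl⟩ := hI.c2 j i h2
      have := h l
      simp [hl] at this
  · rintro rfl l
    have h1 := hI.c1 j _ (ha j) l
    show (p (e (j, a j, l))).getD (z (e (j, a j, l))) = true
    rcases h2 : p (e (j, a j, l)) with _ | b
    · simp [hz]
    · cases b
      · exact absurd h2 h1
      · rfl

lemma fp_iff [NeZero q] {e : Cell q → Fin n} (he : Function.Injective e)
    {p : Fin n → Option Bool} {k : ℕ} (hI : Inv e p k) (a : Fin 6 → Fin q)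
    (ha : ∀ j, cnt e p j (a j) + 2 ≤ q) (z : Fin n → Bool)
    (hz : ∀ c : Cell q, z (e c) = decide (c.2.1 = a c.1)) {b : Bool}
    (hb : p (e (addr a)) = some b) :
    FP (fun c => (p (e c)).getD (z (e c))) ↔ b = true := by
  constructor
  · rintro (⟨j, i, i', hne, h1, h2⟩ | ⟨a', h1, h2⟩)
    · rw [sel_iff he hI a ha z hz] at h1 h2
      exact absurd (h1.trans h2.symm) hne
    · have : a' = a := by
        funext j
        exact (sel_iff he hI a ha z hz j _).1 (h1 j)
      subst this
      simpa [hb] using h2
  · intro h
    right
    refine ⟨a, fun j => (sel_iff he hI a ha z hz j _).2 rfl, ?_⟩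
    simp [hb, h]

/-- Two conflicting assignments can be completed in the same way such that the function takes
different values. -/
lemma sep [NeZero q] (hq : 6 ≤ q) {e : Cell q → Fin n} (he : Function.Injective e)
    {p p' : Fin n → Option Bool} {k k' : ℕ} (hI : Inv e p k) (hI' : Inv e p' k')
    (hk : 4 * k < q) (hk' : 4 * k' < q) {c : Cell q} {b b' : Bool}
    (hb : p (e c) = some b) (hb' : p' (e c) = some b') (hne : b ≠ b') :
    ∃ x x' : Fin n → Bool, Ext x p ∧ Ext x' p' ∧
      (∀ w, p w = none → p' w = none → x w = x' w) ∧
      (FP (fun c => x (e c)) ↔ b = true) ∧ (FP (fun c => x' (e c)) ↔ b' = true) := by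
  classical
  obtain ⟨a, ha, hac⟩ := exists_addr hq
    (fun j => univ.filter (fun i : Fin q => cnt e p j i + 2 ≤ q ∧ cnt e p' j i + 2 ≤ q))
    (fun j => by
      have h1 := undec hI j
      have h2 := undec hI' j
      have h3 : (univ : Finset (Fin q)) ⊆
          (univ.filter (fun i : Fin q => cnt e p j i + 2 ≤ q ∧ cnt e p' j i + 2 ≤ q)) ∪
          ((univ.filter (fun i : Fin q => ¬ (cnt e p j i + 2 ≤ q))) ∪
           (univ.filter (fun i : Fin q => ¬ (cnt e p' j i + 2 ≤ q)))) := by
        intro i _
        simp only [mem_union, mem_filter, mem_univ, true_and]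
        tauto
      have h4 := (card_le_card h3).trans ((card_union_le _ _).trans
        (Nat.add_le_add_left (card_union_le _ _) _))
      rw [card_univ, Fintype.card_fin] at h4
      omega) c
  have ha1 : ∀ j, cnt e p j (a j) + 2 ≤ q := fun j => by
    have := ha j
    simp only [mem_filter, mem_univ, true_and] at this
    exact this.1
  have ha2 : ∀ j, cnt e p' j (a j) + 2 ≤ q := fun j => by
    have := ha j
    simp only [mem_filter, mem_univ, true_and] at this
    exact this.2
  let z : Fin n → Bool := fun w => decide (∃ c : Cell q, e c = w ∧ c.2.1 = a c.1)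
  have hz : ∀ c : Cell q, z (e c) = decide (c.2.1 = a c.1) := by
    intro c
    simp only [z]
    congr 1
    apply propext
    constructor
    · rintro ⟨c', h1, h2⟩
      rw [← he h1]; exact h2
    · intro h
      exact ⟨c, rfl, h⟩
  refine ⟨fun w => (p w).getD (z w), fun w => (p' w).getD (z w), ?_, ?_, ?_, ?_, ?_⟩
  · intro v b h
    simp [h]
  · intro v b h
    simp [h]
  · intro w h h'
    simp [h, h']
  · exact fp_iff he hI a ha1 z hz (by rw [hac]; exact hb)
  · exact fp_iff he hI' a ha2 z hz (by rw [hac]; exact hb')

/-- The function is not constant on the inputs which extend an assignment with the invariant. -/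
lemma nonconst [NeZero q] (hq : 6 ≤ q) {e : Cell q → Fin n}
    {p : Fin n → Option Bool} {k : ℕ} (hI : Inv e p k) (hk : 4 * k < q) :
    (∃ x, Ext x p ∧ FP (fun c => x (e c))) ∧ (∃ x, Ext x p ∧ ¬ FP (fun c => x (e c))) := by
  constructor
  · refine ⟨fun w => (p w).getD true, fun v b h => by simp [h], ?_⟩
    left
    have h1 := undec hI 0
    have h3 : 1 < (univ.filter (fun i : Fin q => cnt e p 0 i + 2 ≤ q)).card := by
      have := card_filter_add_card_filter_not (s := (univ : Finset (Fin q)))
        (fun i : Fin q => cnt e p 0 i + 2 ≤ q)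
      rw [card_univ, Fintype.card_fin] at this
      omega
    obtain ⟨i, hi, i', hi', hne⟩ := one_lt_card.1 h3
    simp only [mem_filter, mem_univ, true_and] at hi hi'
    have key : ∀ i : Fin q, cnt e p 0 i + 2 ≤ q →
        Sel (fun c => (p (e c)).getD true) 0 i := by
      intro i hi l
      have h1 := hI.c1 0 i hi l
      show (p (e (0, i, l))).getD true = true
      rcases h2 : p (e (0, i, l)) with _ | b
      · rfl
      · cases b
        · exact absurd h2 h1
        · rfl
    exact ⟨0, i, i', hne, key i hi, key i' hi'⟩
  · refine ⟨fun w => (p w).getD false, fun v b h => by simp [h], ?_⟩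
    have key : ∀ j (i : Fin q), ¬ Sel (fun c => (p (e c)).getD false) j i := by
      intro j i h
      by_cases h1 : ∃ l, p (e (j, i, l)) = none
      · obtain ⟨l, hl⟩ := h1
        have := h l
        simp [hl] at this
      · push Not at h1
        have h2 : cnt e p j i = q := by
          unfold cnt
          rw [filter_true_of_mem]
          · simp
          · intro l _
            exact Option.isSome_iff_ne_none.2 (h1 l)
        obtain ⟨l, hl⟩ := hI.c2 j i h2
        have := h l
        simp [hl] at this
    rintro (⟨j, i, i', _, h1, _⟩ | ⟨a, h1, _⟩)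
    · exact key _ _ h1
    · exact key _ _ (h1 0)

/-- the start -/
lemma inv_start (hq : 6 ≤ q) (e : Cell q → Fin n) : Inv e (fun _ => none) 0 := by
  have h0 : ∀ j i, cnt e (fun _ => none) j i = 0 := by
    intro j i
    simp [cnt]
  refine ⟨fun j i _ l => by simp, fun j i h => by rw [h0] at h; omega, ?_⟩
  rw [card_eq_zero]
  unfold dec
  rw [filter_eq_empty_iff]
  intro r _
  rw [h0]
  omega

/-- The answer of the adversary: either one answer keeps the invariant with the same number of
decided rows, or both answers keep it with one more decided row. -/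
lemma inv_step (hq : 6 ≤ q) {e : Cell q → Fin n} (he : Function.Injective e)
    {p : Fin n → Option Bool} {k : ℕ} (hI : Inv e p k) {v : Fin n} (hv : p v = none) :
    (∃ b, Inv e (Function.update p v (some b)) k) ∨
      (∀ b, Inv e (Function.update p v (some b)) (k + 1)) ∧ ∃ c, e c = v := by
  classical
  by_cases hr : ∃ c, e c = v
  · obtain ⟨⟨j, i, l⟩, rfl⟩ := hr
    have hoth : ∀ j' i', (j', i') ≠ (j, i) → ∀ l', e (j', i', l') ≠ e (j, i, l) := by
      intro j' i' h l' h2
      apply h
      have := he h2
      simp only [Prod.mk.injEq] at this ⊢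
      exact ⟨this.1, this.2.1⟩
    have hcs : ∀ b, cnt e (Function.update p (e (j, i, l)) (some b)) j i = cnt e p j i + 1 :=
      fun b => cnt_update_same he hv b
    have hco : ∀ b j' i', (j', i') ≠ (j, i) →
        cnt e (Function.update p (e (j, i, l)) (some b)) j' i' = cnt e p j' i' :=
      fun b j' i' h => cnt_update_other (hoth j' i' h) _
    have hval : ∀ b j' i' l', (j', i') ≠ (j, i) →
        Function.update p (e (j, i, l)) (some b) (e (j', i', l')) = p (e (j', i', l')) :=
      fun b j' i' l' h => Function.update_of_ne (hoth j' i' h l') _ _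
    have hle := cnt_le e (Function.update p (e (j, i, l)) (some true)) j i
    rw [hcs] at hle
    rcases lt_trichotomy (cnt e p j i + 2) q with hc | hc | hc
    · left
      refine ⟨true, ⟨?_, ?_, ?_⟩⟩
      · intro j' i' h l'
        by_cases hji : (j', i') = (j, i)
        · simp only [Prod.mk.injEq] at hji
          obtain ⟨rfl, rfl⟩ := hji
          by_cases hl : l' = l
          · subst hl
            simp
          · rw [Function.update_of_ne (fun h2 => hl (by simpa using he h2))]
            exact hI.c1 _ _ (by omega) l'
        · rw [hval _ _ _ _ hji]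
          rw [hco _ _ _ hji] at h
          exact hI.c1 _ _ h l'
      · intro j' i' h
        by_cases hji : (j', i') = (j, i)
        · simp only [Prod.mk.injEq] at hji
          obtain ⟨rfl, rfl⟩ := hji
          rw [hcs] at h
          omega
        · rw [hco _ _ _ hji] at h
          obtain ⟨l', hl'⟩ := hI.c2 _ _ h
          exact ⟨l', by rw [hval _ _ _ _ hji]; exact hl'⟩
      · rw [← hI.c3]
        congr 1
        ext ⟨j', i'⟩
        simp only [dec, mem_filter, mem_univ, true_and]
        by_cases hji : (j', i') = (j, i)
        · simp only [Prod.mk.injEq] at hji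
          obtain ⟨rfl, rfl⟩ := hji
          rw [hcs]
          omega
        · rw [hco _ _ _ hji]
    · right
      refine ⟨?_, ⟨_, rfl⟩⟩
      intro b
      refine ⟨?_, ?_, ?_⟩
      · intro j' i' h l'
        by_cases hji : (j', i') = (j, i)
        · simp only [Prod.mk.injEq] at hji
          obtain ⟨rfl, rfl⟩ := hji
          rw [hcs] at h
          omega
        · rw [hval _ _ _ _ hji]
          rw [hco _ _ _ hji] at h
          exact hI.c1 _ _ h l'
      · intro j' i' h
        by_cases hji : (j', i') = (j, i)
        · simp only [Prod.mk.injEq] at hji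
          obtain ⟨rfl, rfl⟩ := hji
          rw [hcs] at h
          omega
        · rw [hco _ _ _ hji] at h
          obtain ⟨l', hl'⟩ := hI.c2 _ _ h
          exact ⟨l', by rw [hval _ _ _ _ hji]; exact hl'⟩
      · rw [← hI.c3]
        rw [← card_insert_of_notMem (s := dec e p) (a := (j, i))]
        · congr 1
          ext ⟨j', i'⟩
          simp only [dec, mem_filter, mem_univ, true_and, mem_insert]
          by_cases hji : (j', i') = (j, i)
          · simp only [Prod.mk.injEq] at hji
            obtain ⟨rfl, rfl⟩ := hji
            rw [hcs]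
            simp
            omega
          · rw [hco _ _ _ hji]
            simp [hji]
        · simp only [dec, mem_filter, mem_univ, true_and]
          omega
    · left
      refine ⟨if ∃ l', p (e (j, i, l')) = some false then true else false, ⟨?_, ?_, ?_⟩⟩
      · intro j' i' h l'
        by_cases hji : (j', i') = (j, i)
        · simp only [Prod.mk.injEq] at hji
          obtain ⟨rfl, rfl⟩ := hji
          rw [hcs] at h
          omega
        · rw [hval _ _ _ _ hji]
          rw [hco _ _ _ hji] at h
          exact hI.c1 _ _ h l'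
      · intro j' i' h
        by_cases hji : (j', i') = (j, i)
        · simp only [Prod.mk.injEq] at hji
          obtain ⟨rfl, rfl⟩ := hji
          by_cases hex : ∃ l', p (e (j', i', l')) = some false
          · obtain ⟨l', hl'⟩ := hex
            have hne : l' ≠ l := by
              rintro rfl
              rw [hv] at hl'
              exact absurd hl' (by simp)
            refine ⟨l', ?_⟩
            rw [Function.update_of_ne (fun h2 => hne (by simpa using he h2))]
            exact hl'
          · exact ⟨l, by simp [hex]⟩
        · rw [hco _ _ _ hji] at h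
          obtain ⟨l', hl'⟩ := hI.c2 _ _ h
          exact ⟨l', by rw [hval _ _ _ _ hji]; exact hl'⟩
      · rw [← hI.c3]
        congr 1
        ext ⟨j', i'⟩
        simp only [dec, mem_filter, mem_univ, true_and]
        by_cases hji : (j', i') = (j, i)
        · simp only [Prod.mk.injEq] at hji
          obtain ⟨rfl, rfl⟩ := hji
          rw [hcs]
          omega
        · rw [hco _ _ _ hji]
  · left
    push Not at hr
    have hco : ∀ j' i', cnt e (Function.update p v (some false)) j' i' = cnt e p j' i' :=
      fun j' i' => cnt_update_other (fun l => hr _) _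
    have hval : ∀ c, Function.update p v (some false) (e c) = p (e c) :=
      fun c => Function.update_of_ne (hr c) _ _
    refine ⟨false, ⟨?_, ?_, ?_⟩⟩
    · intro j' i' h l'
      rw [hco] at h
      rw [hval]
      exact hI.c1 _ _ h l'
    · intro j' i' h
      rw [hco] at h
      obtain ⟨l', hl'⟩ := hI.c2 _ _ h
      exact ⟨l', by rw [hval]; exact hl'⟩
    · rw [← hI.c3]
      congr 1
      ext ⟨j', i'⟩
      simp only [dec, mem_filter, mem_univ, true_and]
      rw [hco]

end Pool.Agent.V7H75.RB
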