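import Mathlib

/-!
# Read-once branching programs

Definitions of DNFs, nondeterministic and deterministic read-once branching programs.
-/

set_option autoImplicit false

namespace Pool.Agent.V7H75.RB

/-- A term over `n` variables: for each variable whether it does not occur (`none`), occurs as the
literal `x_i` (`some true`) or as the literal `¬ x_i` (`some false`). -/
abbrev Term (n : ℕ) := Fin n → Option Bool

/-- The input `x` satisfies the term `t`. -/
def Sat {n : ℕ} (x : Fin n → Bool) (t : Term n) : Prop := ∀ i b, t i = some b → x i = b

/-- The function `f` has a DNF with at most `m` terms. -/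
def HasDNF (n m : ℕ) (f : (Fin n → Bool) → Bool) : Prop :=
  ∃ D : List (Term n), D.length ≤ m ∧ ∀ x, f x = true ↔ ∃ t ∈ D, Sat x t

/-- The label of an edge: `none` for an unlabelled edge, `some (i, b)` for the test `x_i = b`. -/
abbrev Label (n : ℕ) := Option (Fin n × Bool)

/-- A nondeterministic branching program over the variables `x_0, ..., x_(n-1)` with the set `V` of
nodes (acyclicity is the separate condition `Acyclic`): `edge u l w` says that there is an edge with
label `l` from `u` to `w`.  There are no edges out of the two sinks. -/
structure NBP (n : ℕ) (V : Type) where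
  /-- the source -/
  source : V
  /-- the accepting sink -/
  accept : V
  /-- the rejecting sink -/
  reject : V
  /-- the edges with their labels -/
  edge : V → Label n → V → Prop
  accept_ne_reject : accept ≠ reject
  accept_sink : ∀ l w, ¬ edge accept l w
  reject_sink : ∀ l w, ¬ edge reject l w

namespace NBP

variable {n : ℕ} {V : Type}

/-- `P.Path u ls w`: there is a directed path from `u` to `w` whose edges have the labels `ls`. -/
inductive Path (P : NBP n V) : V → List (Label n) → V → Prop
  | nil (u : V) : Path P u [] u
  | cons {u v w : V} {l : Label n} {ls : List (Label n)} :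
      P.edge u l v → Path P v ls w → Path P u (l :: ls) w

/-- there is no directed cycle -/
def Acyclic (P : NBP n V) : Prop :=
  ∀ u, ¬ Relation.TransGen (fun a b => ∃ l, P.edge a l b) u u

/-- the variables tested by a list of labels -/
def tested (ls : List (Label n)) : List (Fin n) := ls.filterMap (fun l => l.map Prod.fst)

/-- no directed path, consistent or not, tests the same variable twice -/
def ReadOnce (P : NBP n V) : Prop :=
  ∀ u ls w, P.Path u ls w → (tested ls).Nodup

/-- the input `x` satisfies all tests of the list of labels `ls` -/
def Cons (x : Fin n → Bool) (ls : List (Label n)) : Prop :=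
  ∀ i b, some (i, b) ∈ ls → x i = b

/-- some path from `u` to the accepting sink has all of its tests satisfied by `x` -/
def AcceptsFrom (P : NBP n V) (u : V) (x : Fin n → Bool) : Prop :=
  ∃ ls, P.Path u ls P.accept ∧ Cons x ls

/-- the program computes the function `f` -/
def Computes (P : NBP n V) (f : (Fin n → Bool) → Bool) : Prop :=
  ∀ x, f x = true ↔ P.AcceptsFrom P.source x

/-- every node which is not a sink is labelled by a variable `x_i` and has exactly two outgoing
edges, labelled `x_i = 0` and `x_i = 1` -/
def Deterministic (P : NBP n V) : Prop :=
  ∀ u, u ≠ P.accept → u ≠ P.reject → ∃ (i : Fin n) (w : Bool → V),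
    ∀ l v, P.edge u l v ↔ ∃ b, l = some (i, b) ∧ v = w b

end NBP

/-- `f` is computed by a nondeterministic read-once branching program with at most `s` nodes. -/
def HasNBP (n s : ℕ) (f : (Fin n → Bool) → Bool) : Prop :=
  ∃ (V : Type) (_ : Fintype V) (P : NBP n V),
    P.Acyclic ∧ P.ReadOnce ∧ P.Computes f ∧ Fintype.card V ≤ s

/-- `f` is computed by a deterministic read-once branching program with at most `s` nodes. -/
def HasBP (n s : ℕ) (f : (Fin n → Bool) → Bool) : Prop :=
  ∃ (V : Type) (_ : Fintype V) (P : NBP n V),
    P.Deterministic ∧ P.Acyclic ∧ P.ReadOnce ∧ P.Computes f ∧ Fintype.card V ≤ s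

end Pool.Agent.V7H75.RB
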