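import Pool.Agent.V7H75.RB.Comb

/-!
# The lower bound for deterministic read-once branching programs
-/

set_option autoImplicit false

namespace Pool.Agent.V7H75.RB

open Finset NBP

variable {n q : ℕ} {V : Type}

lemma tested_nil : tested ([] : List (Label n)) = [] := rfl

lemma tested_cons_none (ls : List (Label n)) : tested (none :: ls) = tested ls := rfl

lemma tested_cons_some (t : Fin n × Bool) (ls : List (Label n)) :
    tested (some t :: ls) = t.1 :: tested ls := rfl

lemma tested_append (ls ls' : List (Label n)) :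
    tested (ls ++ ls') = tested ls ++ tested ls' := by
  unfold tested
  exact List.filterMap_append

lemma mem_tested {ls : List (Label n)} {v : Fin n} :
    v ∈ tested ls ↔ ∃ b, some (v, b) ∈ ls := by
  unfold tested
  simp only [List.mem_filterMap, Option.map_eq_some_iff, Prod.exists, exists_and_right,
    exists_eq_right]
  constructor
  · rintro ⟨a, ha, b, rfl⟩
    exact ⟨b, ha⟩
  · rintro ⟨b, hb⟩
    exact ⟨_, hb, b, rfl⟩

lemma path_append {P : NBP n V} {u v w : V} {ls ls' : List (Label n)}
    (h : P.Path u ls v) (h' : P.Path v ls' w) : P.Path u (ls ++ ls') w := by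
  induction h with
  | nil u => exact h'
  | cons he _ ih => exact Path.cons he (ih h')

lemma accepts_accept (P : NBP n V) (x : Fin n → Bool) : P.AcceptsFrom P.accept x :=
  ⟨[], Path.nil _, fun i b h => by simp at h⟩

lemma not_accepts_reject (P : NBP n V) (x : Fin n → Bool) : ¬ P.AcceptsFrom P.reject x := by
  rintro ⟨ls, hp, -⟩
  generalize hr : P.reject = r at hp
  generalize ha : P.accept = a at hp
  cases hp with
  | nil => exact P.accept_ne_reject (ha.trans hr.symm)
  | cons he _ => subst hr; exact P.reject_sink _ _ he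

/-- At a test node the input is followed. -/
lemma accepts_step {P : NBP n V} {u : V} {i : Fin n} {w : Bool → V} (hu : u ≠ P.accept)
    (h : ∀ l v, P.edge u l v ↔ ∃ b, l = some (i, b) ∧ v = w b) (x : Fin n → Bool) :
    P.AcceptsFrom u x ↔ P.AcceptsFrom (w (x i)) x := by
  constructor
  · rintro ⟨ls, hp, hc⟩
    generalize ha : P.accept = a at hp
    cases hp with
    | nil => exact absurd ha.symm hu
    | cons he hp' =>
      rename_i v l ls'
      subst ha
      obtain ⟨b, rfl, rfl⟩ := (h _ _).1 he
      have : x i = b := hc i b (by simp)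
      rw [this]
      exact ⟨ls', hp', fun i b hb => hc i b (by simp [hb])⟩
  · rintro ⟨ls, hp, hc⟩
    refine ⟨some (i, x i) :: ls, Path.cons ((h _ _).2 ⟨x i, rfl, rfl⟩) hp, ?_⟩
    intro i' b hb
    simp only [List.mem_cons] at hb
    rcases hb with hb | hb
    · simp only [Option.some.injEq, Prod.mk.injEq] at hb
      rw [hb.1, hb.2]
    · exact hc i' b hb

/-- The invariant of the runs of the adversary. -/
structure Good (P : NBP n V) (e : Cell q → Fin n) (u : V) (p : Fin n → Option Bool) (k : ℕ) :
    Prop where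
  inv : Inv e p k
  path : ∃ ls, P.Path P.source ls u ∧ ∀ v, v ∈ tested ls ↔ p v ≠ none
  acc : ∀ x, Ext x p → (P.AcceptsFrom P.source x ↔ P.AcceptsFrom u x)

/-- The next free decision. -/
lemma next_free [NeZero q] (hq : 6 ≤ q) {e : Cell q → Fin n} (he : Function.Injective e)
    {P : NBP n V} (hdet : P.Deterministic) (hro : P.ReadOnce)
    (hc : ∀ x, FP (fun c => x (e c)) ↔ P.AcceptsFrom P.source x) :
    ∀ (m : ℕ) (u : V) (p : Fin n → Option Bool) (k : ℕ), 4 * k < q →
      (univ.filter (fun v => p v = none)).card = m → Good P e u p k →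
      ∃ c : Cell q, ∀ b, ∃ u' p', Good P e u' p' (k + 1) ∧ (∀ v b', p v = some b' → p' v = some b') ∧
        p' (e c) = some b := by
  intro m
  induction m using Nat.strong_induction_on with
  | _ m ih =>
    intro u p k hk hm hg
    obtain ⟨⟨x1, hx1, hF1⟩, ⟨x2, hx2, hF2⟩⟩ := nonconst hq hg.inv hk
    have hua : u ≠ P.accept := by
      rintro rfl
      exact hF2 ((hc x2).2 ((hg.acc x2 hx2).2 (accepts_accept P x2)))
    have hur : u ≠ P.reject := by
      rintro rfl
      exact not_accepts_reject P x1 ((hg.acc x1 hx1).1 ((hc x1).1 hF1))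
    obtain ⟨v, w, hw⟩ := hdet u hua hur
    obtain ⟨ls, hp, hls⟩ := hg.path
    have hpath : ∀ b, P.Path P.source (ls ++ [some (v, b)]) (w b) := fun b =>
      path_append hp (Path.cons ((hw _ _).2 ⟨b, rfl, rfl⟩) (Path.nil _))
    have hv : p v = none := by
      by_contra hne
      have h1 := hro _ _ _ (hpath true)
      rw [tested_append, tested_cons_some, tested_nil] at h1
      have h2 := (hls v).2 hne
      exact (List.nodup_append.1 h1).2.2 v h2 v (by simp) rfl
    have hext : ∀ b v' b', p v' = some b' → Function.update p v (some b) v' = some b' := by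
      intro b v' b' h
      rw [Function.update_of_ne]
      · exact h
      · rintro rfl
        rw [hv] at h
        simp at h
    have hgood : ∀ b k', Inv e (Function.update p v (some b)) k' →
        Good P e (w b) (Function.update p v (some b)) k' := by
      intro b k' hI
      refine ⟨hI, ⟨_, hpath b, ?_⟩, ?_⟩
      · intro v'
        rw [tested_append, tested_cons_some, tested_nil]
        simp only [List.mem_append, List.mem_cons, List.not_mem_nil, or_false]
        by_cases h : v' = v
        · subst h
          simp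
        · rw [Function.update_of_ne h, hls]
          simp [h]
      · intro x hx
        have h1 : Ext x p := fun v' b' h => hx v' b' (hext b v' b' h)
        rw [hg.acc x h1, accepts_step hua hw x]
        have h2 : x v = b := hx v b (by simp)
        rw [h2]
    have hcard : ∀ b, (univ.filter (fun v' => Function.update p v (some b) v' = none)).card < m := by
      intro b
      rw [← hm]
      apply card_lt_card
      rw [ssubset_iff_of_subset]
      · refine ⟨v, by simp [hv], by simp⟩
      · intro v' hv'
        simp only [mem_filter, mem_univ, true_and] at hv' ⊢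
        by_cases h : v' = v
        · subst h; simp at hv'
        · rwa [Function.update_of_ne h] at hv'
    rcases inv_step hq he hg.inv hv with ⟨b, hb⟩ | ⟨hb, c, rfl⟩
    · obtain ⟨c, hcc⟩ := ih _ (hcard b) (w b) _ k hk rfl (hgood b k hb)
      refine ⟨c, fun b' => ?_⟩
      obtain ⟨u', p', h1, h2, h3⟩ := hcc b'
      exact ⟨u', p', h1, fun v' b'' h => h2 v' b'' (hext b v' b'' h), h3⟩
    · exact ⟨c, fun b => ⟨w b, _, hgood b _ (hb b), hext b, by simp⟩⟩

/-- The family of runs. -/
lemma family [NeZero q] (hq : 6 ≤ q) {e : Cell q → Fin n} (he : Function.Injective e)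
    {P : NBP n V} (hdet : P.Deterministic) (hro : P.ReadOnce)
    (hc : ∀ x, FP (fun c => x (e c)) ↔ P.AcceptsFrom P.source x) (t : ℕ) (ht : 4 * t < q) :
    ∃ (ι : Type) (_ : Fintype ι) (U : ι → V) (p : ι → Fin n → Option Bool),
      Fintype.card ι = 2 ^ t ∧ (∀ i, Good P e (U i) (p i) t) ∧
      ∀ i i', i ≠ i' → ∃ (c : Cell q) (b b' : Bool),
        p i (e c) = some b ∧ p i' (e c) = some b' ∧ b ≠ b' := by
  induction t with
  | zero =>
    refine ⟨Unit, inferInstance, fun _ => P.source, fun _ _ => none, by simp, ?_, ?_⟩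
    · intro _
      refine ⟨inv_start hq e, ⟨[], Path.nil _, fun v => by simp [tested_nil]⟩, fun x _ => Iff.rfl⟩
    · intro i i' h
      exact absurd rfl h
  | succ t ih =>
    obtain ⟨ι, _, U, p, h1, h2, h3⟩ := ih (by omega)
    choose c hcc using fun i => next_free hq he hdet hro hc _ (U i) (p i) t (by omega) rfl (h2 i)
    choose U' p' hg hext hval using hcc
    refine ⟨ι × Bool, inferInstance, fun i => U' i.1 i.2, fun i => p' i.1 i.2, ?_, ?_, ?_⟩
    · simp [h1, pow_succ]
    · rintro ⟨i, b⟩
      exact hg i b
    · rintro ⟨i, b⟩ ⟨i', b'⟩ hne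
      by_cases h : i = i'
      · subst h
        have hb : b ≠ b' := fun h => hne (by rw [h])
        exact ⟨c i, b, b', hval i b, hval i b', hb⟩
      · obtain ⟨c', d, d', e1, e2, e3⟩ := h3 i i' h
        exact ⟨c', d, d', hext i b _ _ e1, hext i' b' _ _ e2, e3⟩

/-- Acceptance from a node depends on the variables which can be tested from there. -/
lemma accepts_congr {P : NBP n V} {u : V} {x x' : Fin n → Bool}
    (h : ∀ ls w, P.Path u ls w → ∀ v ∈ tested ls, x v = x' v) :
    P.AcceptsFrom u x → P.AcceptsFrom u x' := by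
  rintro ⟨ls, hp, hc⟩
  refine ⟨ls, hp, fun i b hb => ?_⟩
  rw [← h ls _ hp i (mem_tested.2 ⟨b, hb⟩)]
  exact hc i b hb

theorem lower [NeZero q] (hq : 6 ≤ q) {e : Cell q → Fin n} (he : Function.Injective e)
    [Fintype V] {P : NBP n V} (hdet : P.Deterministic) (hro : P.ReadOnce)
    (hc : ∀ x, FP (fun c => x (e c)) ↔ P.AcceptsFrom P.source x) :
    2 ^ ((q - 1) / 4) ≤ Fintype.card V := by
  have h4 : 4 * ((q - 1) / 4) < q := by omega
  obtain ⟨ι, _, U, p, h1, h2, h3⟩ := family hq he hdet hro hc ((q - 1) / 4) h4
  rw [← h1]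
  apply Fintype.card_le_of_injective U
  intro i i' hU
  by_contra hne
  obtain ⟨c, b, b', hb, hb', hbb⟩ := h3 i i' hne
  obtain ⟨x, x', hx, hx', hag, hF, hF'⟩ := sep hq he (h2 i).inv (h2 i').inv h4 h4 hb hb' hbb
  have hun : ∀ ls w, P.Path (U i) ls w → ∀ v ∈ tested ls, x v = x' v := by
    intro ls w hp v hv
    have key : ∀ i, P.Path (U i) ls w → p i v = none := by
      intro i hp
      obtain ⟨ls0, hp0, hls0⟩ := (h2 i).path
      by_contra hne
      have h5 := hro _ _ _ (path_append hp0 hp)
      rw [tested_append] at h5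
      exact (List.nodup_append.1 h5).2.2 v ((hls0 v).2 hne) v hv rfl
    exact hag v (key i hp) (key i' (hU ▸ hp))
  have e1 : P.AcceptsFrom (U i) x ↔ P.AcceptsFrom (U i) x' :=
    ⟨accepts_congr hun, accepts_congr fun ls w hp v hv => (hun ls w hp v hv).symm⟩
  have e2 : FP (fun c => x (e c)) ↔ FP (fun c => x' (e c)) := by
    rw [hc, hc, (h2 i).acc x hx, (h2 i').acc x' hx', e1, hU]
  rw [hF, hF'] at e2
  apply hbb
  cases b <;> cases b' <;> simp_all

end Pool.Agent.V7H75.RB
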