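import Pool.Agent.V7H75.RB.Upper

/-!
# The separating function
-/

set_option autoImplicit false

namespace Pool.Agent.V7H75.RB

open Finset NBP

variable {n q : ℕ}

/-! ### The DNF -/

open Classical in
/-- the conjunction of the variables of a set -/
noncomputable def conj (S : Set (Fin n)) : Term n := fun v => if v ∈ S then some true else none

lemma sat_conj {x : Fin n → Bool} {S : Set (Fin n)} :
    Sat x (conj S) ↔ ∀ v ∈ S, x v = true := by
  unfold Sat conj
  constructor
  · intro h v hv
    exact h v true (by simp [hv])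
  · intro h v b hb
    by_cases hv : v ∈ S
    · simp only [hv, if_true, Option.some.injEq] at hb
      rw [← hb]; exact h v hv
    · simp [hv] at hb

lemma hasDNF_of_fintype {I : Type} [Fintype I] (ok : I → Prop) (τ : I → Term n)
    (f : (Fin n → Bool) → Bool) (hf : ∀ x, f x = true ↔ ∃ s, ok s ∧ Sat x (τ s)) :
    HasDNF n (Fintype.card I) f := by
  classical
  refine ⟨((univ.filter ok).toList).map τ, ?_, ?_⟩
  · rw [List.length_map, length_toList]
    exact card_le_univ _
  · intro x
    rw [hf]
    simp only [List.mem_map, mem_toList, mem_filter, mem_univ, true_and, exists_exists_and_eq_and]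

open Classical in
/-- the function on the variables `x_(e c)` -/
noncomputable def fq (n q : ℕ) [NeZero q] (e : Cell q → Fin n) (x : Fin n → Bool) : Bool :=
  decide (FP (fun c => x (e c)))

lemma fq_iff [NeZero q] (e : Cell q → Fin n) (x : Fin n → Bool) :
    fq n q e x = true ↔ FP (fun c => x (e c)) := by simp [fq]

lemma fq_dnf [NeZero q] (e : Cell q → Fin n) :
    HasDNF n (6 * (q * q) + q ^ 6) (fq n q e) := by
  have h := hasDNF_of_fintype (n := n) (I := (Fin 6 × Fin q × Fin q) ⊕ (Fin 6 → Fin q))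
    (fun s => match s with
      | Sum.inl (_, i, i') => i ≠ i'
      | Sum.inr _ => True)
    (fun s => match s with
      | Sum.inl (j, i, i') => conj {v | ∃ l, v = e (j, i, l) ∨ v = e (j, i', l)}
      | Sum.inr a => conj {v | (∃ j l, v = e (j, a j, l)) ∨ v = e (addr a)})
    (fq n q e) (fun x => by
      rw [fq_iff]
      constructor
      · rintro (⟨j, i, i', hne, h1, h2⟩ | ⟨a, h1, h2⟩)
        · refine ⟨Sum.inl (j, i, i'), hne, ?_⟩
          rw [sat_conj]
          rintro v ⟨l, rfl | rfl⟩
          · exact h1 l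
          · exact h2 l
        · refine ⟨Sum.inr a, trivial, ?_⟩
          rw [sat_conj]
          rintro v (⟨j, l, rfl⟩ | rfl)
          · exact h1 j l
          · exact h2
      · rintro ⟨⟨j, i, i'⟩ | a, h1, h2⟩
        · rw [sat_conj] at h2
          exact Or.inl ⟨j, i, i', h1, fun l => h2 _ ⟨l, Or.inl rfl⟩, fun l => h2 _ ⟨l, Or.inr rfl⟩⟩
        · rw [sat_conj] at h2
          exact Or.inr ⟨a, fun j l => h2 _ (Or.inl ⟨j, l, rfl⟩), h2 _ (Or.inr rfl)⟩)
  refine h.mono (le_of_eq ?_)
  simp

/-! ### The program for the negation -/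

/-- the number of a row -/
def rowN (c : Cell q) : ℕ := c.1.val * q + c.2.1.val

lemma rowN_lt (c : Cell q) : rowN c < 6 * q := by
  unfold rowN
  have h1 := c.1.isLt
  have h2 := c.2.1.isLt
  have h3 : c.1.val * q + q ≤ 6 * q := by
    have : (c.1.val + 1) * q ≤ 6 * q := Nat.mul_le_mul_right q h1
    linarith
  omega

lemma rowN_inj {c c' : Cell q} (h : rowN c = rowN c') : c.1 = c'.1 ∧ c.2.1 = c'.2.1 := by
  unfold rowN at h
  have h1 := c.2.1.isLt
  have h2 := c'.2.1.isLt
  have hq : 0 < q := by omega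
  have e1 : c.1.val = c'.1.val := by
    have := congrArg (· / q) h
    simp only [mul_comm _ q] at this
    rw [Nat.mul_add_div hq, Nat.mul_add_div hq, Nat.div_eq_of_lt h1, Nat.div_eq_of_lt h2] at this
    simpa using this
  have e2 : c.2.1.val = c'.2.1.val := by
    rw [e1] at h
    omega
  exact ⟨Fin.ext e1, Fin.ext e2⟩

lemma rowN_surj {r : ℕ} (h : r < 6 * q) : ∃ (j : Fin 6) (i : Fin q), ∀ l, rowN (j, i, l) = r := by
  have hq : 0 < q := by
    rcases Nat.eq_zero_or_pos q with rfl | h'
    · simp at h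
    · exact h'
  refine ⟨⟨r / q, Nat.div_lt_of_lt_mul (by linarith)⟩, ⟨r % q, Nat.mod_lt _ hq⟩, fun l => ?_⟩
  simp only [rowN]
  exact Nat.div_add_mod' r q

open Classical in
/-- the term of row `r`: ones if the row is guessed, otherwise a zero in place `l` -/
noncomputable def rterm (e : Cell q → Fin n) (g : Fin 6 → Option (Fin q)) (r : ℕ) (l : Fin q) :
    Term n := fun v =>
  if ∃ c, e c = v ∧ rowN c = r ∧ g c.1 = some c.2.1 then some true
  else if ∃ c, e c = v ∧ rowN c = r ∧ g c.1 ≠ some c.2.1 ∧ c.2.2 = l then some false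
  else none

/-- the admissible places -/
def rok [NeZero q] (g : Fin 6 → Option (Fin q)) (r : ℕ) (l : Fin q) : Prop :=
  ∀ a : Fin 6 → Fin q, (∀ j, g j = some (a j)) → rowN (addr a) = r →
    g (addr a).1 ≠ some (addr a).2.1 ∧ l = (addr a).2.2

lemma neg_iff [NeZero q] {e : Cell q → Fin n} (he : Function.Injective e) (x : Fin n → Bool) :
    (¬ FP (fun c => x (e c))) ↔
      ∃ g : Fin 6 → Option (Fin q), ∀ r < 6 * q, ∃ l, rok g r l ∧ Sat x (rterm e g r l) := by
  constructor
  · intro hF
    have hex : ∀ j, ∃ o : Option (Fin q), ∀ i, o = some i ↔ Sel (fun c => x (e c)) j i := by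
      intro j
      by_cases h : ∃ i, Sel (fun c => x (e c)) j i
      · obtain ⟨i, hi⟩ := h
        refine ⟨some i, fun i' => ?_⟩
        rw [Option.some.injEq]
        constructor
        · rintro rfl; exact hi
        · intro hi'
          by_contra hne
          exact hF (Or.inl ⟨j, i, i', hne, hi, hi'⟩)
      · push Not at h
        exact ⟨none, fun i => by simp [h i]⟩
    choose g hg using hex
    refine ⟨g, fun r hr => ?_⟩
    by_cases hA : ∃ a : Fin 6 → Fin q, (∀ j, g j = some (a j)) ∧ rowN (addr a) = r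
    · obtain ⟨a, ha, har⟩ := hA
      have hx : x (e (addr a)) ≠ true := fun h =>
        hF (Or.inr ⟨a, fun j => (hg j _).1 (ha j), h⟩)
      have hns : g (addr a).1 ≠ some (addr a).2.1 := fun h =>
        hx ((hg _ _).1 h (addr a).2.2)
      refine ⟨(addr a).2.2, ?_, ?_⟩
      · intro a' ha' _
        have : a' = a := by
          funext j
          have := (ha' j).symm.trans (ha j)
          simpa using this
        subst this
        exact ⟨hns, rfl⟩
      · intro v b hb
        unfold rterm at hb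
        split_ifs at hb with h1 h2
        · obtain ⟨c, rfl, -, h3⟩ := h1
          rw [Option.some.injEq] at hb
          rw [← hb]
          exact (hg _ _).1 h3 c.2.2
        · obtain ⟨c, rfl, h3, h4, h5⟩ := h2
          rw [Option.some.injEq] at hb
          rw [← hb]
          obtain ⟨h6, h7⟩ := rowN_inj (h3.trans har.symm)
          have h8 : c = addr a := Prod.ext h6 (Prod.ext h7 h5)
          rw [h8]
          simpa using hx
    · obtain ⟨j, i, hji⟩ := rowN_surj hr
      have hok : ∀ l, rok g r l := fun l a h1 h2 => absurd ⟨a, h1, h2⟩ hA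
      by_cases hs : g j = some i
      · refine ⟨0, hok _, ?_⟩
        intro v b hb
        unfold rterm at hb
        split_ifs at hb with h1 h2
        · obtain ⟨c, rfl, -, h3⟩ := h1
          rw [Option.some.injEq] at hb
          rw [← hb]
          exact (hg _ _).1 h3 c.2.2
        · obtain ⟨c, rfl, h3, h4, h5⟩ := h2
          obtain ⟨h6, h7⟩ := rowN_inj (h3.trans (hji c.2.2).symm)
          simp only at h6 h7
          rw [h6, h7] at h4
          exact absurd hs h4
      · have hns : ¬ Sel (fun c => x (e c)) j i := fun h => hs ((hg j i).2 h)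
        unfold Sel at hns
        push Not at hns
        obtain ⟨l, hl⟩ := hns
        refine ⟨l, hok _, ?_⟩
        intro v b hb
        unfold rterm at hb
        split_ifs at hb with h1 h2
        · obtain ⟨c, rfl, -, h3⟩ := h1
          rw [Option.some.injEq] at hb
          rw [← hb]
          exact (hg _ _).1 h3 c.2.2
        · obtain ⟨c, rfl, h3, h4, h5⟩ := h2
          obtain ⟨h6, h7⟩ := rowN_inj (h3.trans (hji c.2.2).symm)
          rw [Option.some.injEq] at hb
          rw [← hb]
          have h8 : c = (j, i, l) := Prod.ext h6 (Prod.ext h7 h5)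
          rw [h8]
          simpa using hl
  · rintro ⟨g, hg⟩
    have hone : ∀ j i l, g j = some i → x (e (j, i, l)) = true := by
      intro j i l h
      obtain ⟨l', -, hs⟩ := hg (rowN (j, i, l)) (rowN_lt _)
      apply hs
      unfold rterm
      rw [if_pos ⟨(j, i, l), rfl, rfl, h⟩]
    have hzero : ∀ c : Cell q, g c.1 ≠ some c.2.1 → ∀ l, Sat x (rterm e g (rowN c) l) →
        x (e (c.1, c.2.1, l)) = false := by
      intro c h l hs
      apply hs
      unfold rterm
      rw [if_neg, if_pos]
      · exact ⟨(c.1, c.2.1, l), rfl, rfl, h, rfl⟩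
      · rintro ⟨c', h1, -, h3⟩
        rw [he h1] at h3
        exact h h3
    have hsel : ∀ j i, Sel (fun c => x (e c)) j i ↔ g j = some i := by
      intro j i
      constructor
      · intro h
        by_contra hne
        obtain ⟨l, -, hs⟩ := hg (rowN (j, i, (0 : Fin q))) (rowN_lt _)
        have h1 := hzero (j, i, 0) hne l hs
        have h2 := h l
        simp only at h2 h1
        rw [h1] at h2
        exact absurd h2 (by simp)
      · intro h l
        exact hone j i l h
    rintro (⟨j, i, i', hne, h1, h2⟩ | ⟨a, h1, h2⟩)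
    · rw [hsel] at h1 h2
      rw [h1] at h2
      exact hne (by simpa using h2)
    · have ha : ∀ j, g j = some (a j) := fun j => (hsel _ _).1 (h1 j)
      obtain ⟨l, hok, hs⟩ := hg (rowN (addr a)) (rowN_lt _)
      obtain ⟨h3, h4⟩ := hok a ha rfl
      have h5 := hzero (addr a) h3 l hs
      rw [h4] at h5
      have h6 : ((addr a).1, (addr a).2.1, (addr a).2.2) = addr a := rfl
      rw [h6] at h5
      simp only at h2
      rw [h5] at h2
      exact absurd h2 (by simp)

lemma fq_neg [NeZero q] {e : Cell q → Fin n} (he : Function.Injective e) :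
    HasNBP n ((q + 1) ^ 6 * (6 * q * (q * (n + 1))) + 3) (fun x => ! fq n q e x) := by
  classical
  have h := layered (n := n) (M := 6 * q) (by have := NeZero.pos q; omega)
    (G := Fin 6 → Option (Fin q)) (T := Fin q)
    (fun v => if h : ∃ c, e c = v then rowN h.choose else 0) rok (rterm e)
    (fun g r l v hne => by
      have key : ∀ c, e c = v → rowN c = r →
          (if h : ∃ c, e c = v then rowN h.choose else 0) = r := by
        intro c hc hr
        have hex : ∃ c, e c = v := ⟨c, hc⟩
        rw [dif_pos hex]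
        have : hex.choose = c := he (hex.choose_spec.trans hc.symm)
        rw [this, hr]
      unfold rterm at hne
      split_ifs at hne with h1 h2
      · obtain ⟨c, hc, hr, -⟩ := h1
        exact key c hc hr
      · obtain ⟨c, hc, hr, -⟩ := h2
        exact key c hc hr
      · exact absurd rfl hne)
    (fun x => ! fq n q e x) (fun x => by
      rw [← neg_iff he x]
      simp [fq])
  refine h.mono (le_of_eq ?_)
  simp

/-! ### The family -/

/-- the order of the matrices -/
def Q (n : ℕ) : ℕ := Nat.sqrt (n / 6)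

lemma exists_emb (n : ℕ) : ∃ e : Cell (Q n) → Fin n, Function.Injective e := by
  have h : Fintype.card (Cell (Q n)) ≤ Fintype.card (Fin n) := by
    simp only [Fintype.card_prod, Fintype.card_fin]
    have h1 : Q n * Q n ≤ n / 6 := Nat.sqrt_le (n / 6)
    have h2 : 6 * (n / 6) ≤ n := Nat.mul_div_le n 6
    calc 6 * (Q n * Q n) ≤ 6 * (n / 6) := Nat.mul_le_mul_left 6 h1
      _ ≤ n := h2
  obtain ⟨e⟩ := Function.Embedding.nonempty_of_card_le h
  exact ⟨e, e.injective⟩

/-- the separating function -/
noncomputable def F (n : ℕ) (x : Fin n → Bool) : Bool :=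
  if h : 6 ≤ Q n then
    haveI : NeZero (Q n) := ⟨by omega⟩
    fq n (Q n) (exists_emb n).choose x
  else false

lemma six_le {n : ℕ} (h : 6 ≤ Q n) : 6 * (Q n * Q n) ≤ n ∧ Q n + 1 ≤ n := by
  have h1 : Q n * Q n ≤ n / 6 := Nat.sqrt_le (n / 6)
  have h2 : 6 * (n / 6) ≤ n := Nat.mul_div_le n 6
  have h3 : 6 * (Q n * Q n) ≤ n := (Nat.mul_le_mul_left 6 h1).trans h2
  refine ⟨h3, ?_⟩
  nlinarith

lemma F_small {n : ℕ} (h : ¬ 6 ≤ Q n) (x : Fin n → Bool) : F n x = false := by
  unfold F
  rw [dif_neg h]

theorem F_dnf : ∀ n, HasDNF n (n ^ 4 + 4) (F n) := by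
  intro n
  by_cases h : 6 ≤ Q n
  · have : NeZero (Q n) := ⟨by omega⟩
    have h1 : F n = fq n (Q n) (exists_emb n).choose := by
      funext x
      unfold F
      rw [dif_pos h]
    rw [h1]
    refine (fq_dnf _).mono ?_
    obtain ⟨h2, h3⟩ := six_le h
    have h4 : Q n * Q n ≤ n := by omega
    have h5 : Q n ^ 6 ≤ n ^ 3 := by
      calc Q n ^ 6 = (Q n * Q n) ^ 3 := by ring
        _ ≤ n ^ 3 := Nat.pow_le_pow_left h4 3
    have h6 : n + n ^ 3 ≤ n ^ 4 := by
      have : 2 ≤ n := by omega
      have h7 : n ^ 4 = n * n ^ 3 := by ring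
      have h8 : n ≤ n ^ 3 := Nat.le_self_pow (by norm_num) n
      have h9 : 2 * n ^ 3 ≤ n * n ^ 3 := Nat.mul_le_mul_right _ this
      omega
    omega
  · refine ⟨[], by simp, fun x => by simp [F_small h]⟩

theorem F_nbp : ∀ n, HasNBP n (n ^ 13 + 13) (F n) := by
  intro n
  refine (F_dnf n).nbp.mono ?_
  rcases Nat.lt_or_ge n 2 with h | h
  · interval_cases n <;> norm_num
  · have h0 : n ^ 8 ≤ n ^ 13 := Nat.pow_le_pow_right (by omega) (by norm_num)
    have h1 : n ^ 4 * (n + 1) + 4 * (n + 1) + 3 ≤ n ^ 13 + 13 := by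
      have h2 : n + 1 ≤ n ^ 2 := by nlinarith
      have h3 : n ^ 4 * (n + 1) ≤ n ^ 6 := by
        calc n ^ 4 * (n + 1) ≤ n ^ 4 * n ^ 2 := Nat.mul_le_mul_left _ h2
          _ = n ^ 6 := by ring
      have h4 : 4 * (n + 1) ≤ n ^ 4 := by
        have : 4 ≤ n ^ 2 := by nlinarith
        calc 4 * (n + 1) ≤ n ^ 2 * n ^ 2 := Nat.mul_le_mul this h2
          _ = n ^ 4 := by ring
      have h5 : n ^ 4 ≤ n ^ 6 := Nat.pow_le_pow_right (by omega) (by norm_num)
      have h6 : 2 * n ^ 6 ≤ n ^ 8 := by
        have : 2 ≤ n ^ 2 := by nlinarith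
        calc 2 * n ^ 6 ≤ n ^ 2 * n ^ 6 := Nat.mul_le_mul_right _ this
          _ = n ^ 8 := by ring
      omega
    calc (n ^ 4 + 4) * (n + 1) + 3 = n ^ 4 * (n + 1) + 4 * (n + 1) + 3 := by ring
      _ ≤ _ := h1

theorem F_neg_nbp : ∀ n, HasNBP n (n ^ 9 + 9) (fun x => ! F n x) := by
  intro n
  by_cases h : 6 ≤ Q n
  · have : NeZero (Q n) := ⟨by omega⟩
    have h1 : F n = fq n (Q n) (exists_emb n).choose := by
      funext x
      unfold F
      rw [dif_pos h]
    rw [h1]
    refine (fq_neg (exists_emb n).choose_spec).mono ?_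
    obtain ⟨h2, h3⟩ := six_le h
    have h4 : (Q n + 1) ^ 6 ≤ n ^ 6 := Nat.pow_le_pow_left h3 6
    have h5 : 6 * Q n * (Q n * (n + 1)) ≤ n ^ 3 := by
      calc 6 * Q n * (Q n * (n + 1)) = 6 * (Q n * Q n) * (n + 1) := by ring
        _ ≤ n * (n + 1) := Nat.mul_le_mul_right _ h2
        _ ≤ n * n ^ 2 := Nat.mul_le_mul_left _ (by nlinarith)
        _ = n ^ 3 := by ring
    calc (Q n + 1) ^ 6 * (6 * Q n * (Q n * (n + 1))) + 3 ≤ n ^ 6 * n ^ 3 + 3 :=
          Nat.add_le_add_right (Nat.mul_le_mul h4 h5) 3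
      _ ≤ n ^ 9 + 9 := by
          have : n ^ 6 * n ^ 3 = n ^ 9 := by ring
          omega
  · have hD : HasDNF n 1 (fun x => ! F n x) :=
      ⟨[fun _ => none], by simp, fun x => by simp [F_small h, Sat]⟩
    refine hD.nbp.mono ?_
    have : n ≤ n ^ 9 := Nat.le_self_pow (by norm_num) n
    omega

theorem F_lower (n s : ℕ) (h : HasBP n s (F n)) :
    2 ^ ((Nat.sqrt (n / 6) - 1) / 4) ≤ s := by
  obtain ⟨V, _, P, h1, _, h3, h4, h5⟩ := h
  refine le_trans ?_ h5
  change 2 ^ ((Q n - 1) / 4) ≤ _
  by_cases h : 6 ≤ Q n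
  · have : NeZero (Q n) := ⟨by omega⟩
    have h6 : F n = fq n (Q n) (exists_emb n).choose := by
      funext x
      unfold F
      rw [dif_pos h]
    refine lower h (exists_emb n).choose_spec h1 h3 (fun x => ?_)
    rw [← fq_iff, ← h6, h4]
  · have h6 : (Q n - 1) / 4 ≤ 1 := by omega
    have h7 : 2 ^ ((Q n - 1) / 4) ≤ 2 ^ 1 := Nat.pow_le_pow_right (by norm_num) h6
    refine h7.trans ?_
    have : Nontrivial V := ⟨P.accept, P.reject, P.accept_ne_reject⟩
    have := Fintype.one_lt_card (α := V)
    omega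

lemma fq_mono [NeZero q] (e : Cell q → Fin n) {x y : Fin n → Bool} (h : x ≤ y)
    (hx : fq n q e x = true) : fq n q e y = true := by
  rw [fq_iff] at hx ⊢
  have key : ∀ v, x v = true → y v = true := fun v hv => by
    have := h v
    rw [hv] at this
    exact Bool.eq_true_of_true_le this
  rcases hx with ⟨j, i, i', hne, h1, h2⟩ | ⟨a, h1, h2⟩
  · exact Or.inl ⟨j, i, i', hne, fun l => key _ (h1 l), fun l => key _ (h2 l)⟩
  · exact Or.inr ⟨a, fun j l => key _ (h1 j l), key _ h2⟩

theorem F_mono (n : ℕ) : Monotone (F n) := by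
  intro x y hxy
  by_cases h : 6 ≤ Q n
  · have : NeZero (Q n) := ⟨by omega⟩
    have h6 : F n = fq n (Q n) (exists_emb n).choose := by
      funext x
      unfold F
      rw [dif_pos h]
    rw [h6]
    rcases h7 : fq n (Q n) (exists_emb n).choose x with _ | _
    · exact Bool.false_le _
    · rw [fq_mono _ hxy h7]
  · rw [F_small h, F_small h]

end Pool.Agent.V7H75.RB
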