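import Pool.Agent.V7H75.RB.Lower

/-!
# Constructions of nondeterministic read-once branching programs
-/

set_option autoImplicit false

namespace Pool.Agent.V7H75.RB

open Finset NBP

variable {n q : ℕ} {V : Type}

lemma acyclic_of_rank {P : NBP n V} (rk : V → ℕ)
    (h : ∀ u l w, P.edge u l w → rk u < rk w) : P.Acyclic := by
  have key : ∀ u w, Relation.TransGen (fun a b => ∃ l, P.edge a l b) u w → rk u < rk w := by
    intro u w hw
    induction hw with
    | single h1 => obtain ⟨l, hl⟩ := h1; exact h _ _ _ hl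
    | tail _ h1 ih => obtain ⟨l, hl⟩ := h1; exact ih.trans (h _ _ _ hl)
  intro u hu
  exact lt_irrefl _ (key u u hu)

lemma readOnce_of_rank {P : NBP n V} (rk : V → ℕ) (κ : Fin n → ℕ)
    (h : ∀ u l w, P.edge u l w → rk u < rk w)
    (h2 : ∀ u i b w, P.edge u (some (i, b)) w → rk u ≤ κ i ∧ κ i < rk w) : P.ReadOnce := by
  have key : ∀ u ls w, P.Path u ls w →
      (∀ v ∈ tested ls, rk u ≤ κ v) ∧ (tested ls).Nodup := by
    intro u ls w hp
    induction hp with
    | nil u => simp [tested_nil]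
    | cons he _ ih =>
      rename_i u v w l ls _
      have h3 := h _ _ _ he
      rcases l with _ | ⟨i, b⟩
      · rw [tested_cons_none]
        exact ⟨fun v' hv' => h3.le.trans (ih.1 v' hv'), ih.2⟩
      · rw [tested_cons_some]
        obtain ⟨h4, h5⟩ := h2 _ _ _ _ he
        refine ⟨?_, ?_⟩
        · intro v' hv'
          rw [List.mem_cons] at hv'
          rcases hv' with rfl | hv'
          · exact h4
          · exact h3.le.trans (ih.1 v' hv')
        · rw [List.nodup_cons]
          refine ⟨fun hi => ?_, ih.2⟩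
          have := ih.1 _ hi
          simp only at this
          omega
  intro u ls w hp
  exact (key u ls w hp).2

/-- the edges of the layered program -/
def ledge {n M : ℕ} {G T : Type} (ok : G → ℕ → T → Prop) (τ : G → ℕ → T → Term n) :
    (Fin 3 ⊕ (G × Fin M × T × Fin (n + 1))) → Label n →
      (Fin 3 ⊕ (G × Fin M × T × Fin (n + 1))) → Prop
  | Sum.inl s, l, Sum.inr (g, r, t, k) => s = 0 ∧ l = none ∧ r.val = 0 ∧ k.val = 0 ∧ ok g 0 t
  | Sum.inr (g, r, t, k), l, Sum.inr (g', r', t', k') =>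
      (g' = g ∧ r' = r ∧ t' = t ∧ k'.val = k.val + 1 ∧
        ∃ h : k.val < n, l = (τ g r t ⟨k, h⟩).map (fun b => (⟨k, h⟩, b))) ∨
      (g' = g ∧ r'.val = r.val + 1 ∧ k.val = n ∧ k'.val = 0 ∧ l = none ∧ ok g r' t')
  | Sum.inr (_, r, _, k), l, Sum.inl s => s = 1 ∧ l = none ∧ r.val + 1 = M ∧ k.val = n
  | Sum.inl _, _, Sum.inl _ => False

/-- the layered program -/
def layer {n : ℕ} (M : ℕ) {G T : Type} (ok : G → ℕ → T → Prop) (τ : G → ℕ → T → Term n) :
    NBP n (Fin 3 ⊕ (G × Fin M × T × Fin (n + 1))) where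
  source := Sum.inl 0
  accept := Sum.inl 1
  reject := Sum.inl 2
  edge := ledge ok τ
  accept_ne_reject := by simp
  accept_sink := by
    rintro l (s | ⟨g, r, t, k⟩) h
    · exact h
    · exact absurd h.1 (by decide)
  reject_sink := by
    rintro l (s | ⟨g, r, t, k⟩) h
    · exact h
    · exact absurd h.1 (by decide)

section
variable {M : ℕ} {G T : Type} {ok : G → ℕ → T → Prop} {τ : G → ℕ → T → Term n}

/-- the rank -/
def lrk : (Fin 3 ⊕ (G × Fin M × T × Fin (n + 1))) → ℕ
  | Sum.inl s => if s = 0 then 0 else M * (n + 1) + 1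
  | Sum.inr (_, r, _, k) => r.val * (n + 1) + k.val + 1

lemma lrk_lt (u : Fin 3 ⊕ (G × Fin M × T × Fin (n + 1))) (l : Label n)
    (w : Fin 3 ⊕ (G × Fin M × T × Fin (n + 1))) (h : (layer M ok τ).edge u l w) :
    lrk u < lrk w := by
  rcases u with s | ⟨g, r, t, k⟩ <;> rcases w with s' | ⟨g', r', t', k'⟩
  · exact absurd h id
  · obtain ⟨rfl, -, h1, h2, -⟩ := h
    simp [lrk]
  · obtain ⟨rfl, -, h1, h2⟩ := h
    simp only [lrk]
    rw [if_neg (by decide)]
    have : (r.val + 1) * (n + 1) = r.val * (n + 1) + (n + 1) := by ring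
    have h3 : M * (n + 1) = (r.val + 1) * (n + 1) := by rw [h1]
    omega
  · rcases h with ⟨rfl, rfl, rfl, h1, -⟩ | ⟨rfl, h1, h2, h3, -, -⟩
    · simp only [lrk]
      omega
    · simp only [lrk]
      rw [h1, h2, h3]
      have : (r.val + 1) * (n + 1) = r.val * (n + 1) + (n + 1) := by ring
      omega

lemma layer_readOnce (row : Fin n → ℕ) (hrow : ∀ g r t i, τ g r t i ≠ none → row i = r) :
    (layer M ok τ).ReadOnce := by
  apply readOnce_of_rank lrk (fun i => row i * (n + 1) + i.val + 1) lrk_lt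
  intro u i b w h
  rcases u with s | ⟨g, r, t, k⟩ <;> rcases w with s' | ⟨g', r', t', k'⟩
  · exact absurd h id
  · exact absurd h.2.1 (by simp)
  · exact absurd h.2.1 (by simp)
  · rcases h with ⟨rfl, rfl, rfl, h1, hk, h2⟩ | ⟨rfl, h1, h2, h3, h4, -⟩
    · rcases h3 : τ g' r' t' ⟨k, hk⟩ with _ | b'
      · rw [h3] at h2; simp at h2
      · rw [h3] at h2
        simp only [Option.map_some, Option.some.injEq, Prod.mk.injEq] at h2
        obtain ⟨h2, -⟩ := h2
        have h4 := hrow g' r' t' ⟨k, hk⟩ (by rw [h3]; simp)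
        rw [← h2] at h4
        have h5 : i.val = k.val := by rw [h2]
        simp only [lrk]
        rw [h4, h1]
        omega
    · exact absurd h4 (by simp)

lemma layer_sound (x : Fin n → Bool) {u : Fin 3 ⊕ (G × Fin M × T × Fin (n + 1))}
    {ls : List (Label n)} {w : Fin 3 ⊕ (G × Fin M × T × Fin (n + 1))}
    (hp : (layer M ok τ).Path u ls w) (hw : w = Sum.inl 1) (hc : Cons x ls) :
    ∀ g r t k, u = Sum.inr (g, r, t, k) →
      (∀ i : Fin n, k.val ≤ i.val → ∀ b, τ g r t i = some b → x i = b) ∧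
      ∀ r', r.val < r' → r' < M → ∃ t', ok g r' t' ∧ Sat x (τ g r' t') := by
  induction hp with
  | nil u => intro g r t k h; rw [hw] at h; simp at h
  | cons he hp' ih =>
    rename_i u v w l ls
    intro g r t k hu
    subst hu
    have hc' : Cons x ls := fun i b hb => hc i b (by simp [hb])
    rcases v with s' | ⟨g', r', t', k'⟩
    · obtain ⟨rfl, -, h1, h2⟩ := he
      refine ⟨fun i hi => absurd i.isLt (by omega), fun r' h3 h4 => by omega⟩
    · rcases he with ⟨rfl, rfl, rfl, h1, hk, h2⟩ | ⟨rfl, h1, h2, h3, h4, h5⟩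
      · obtain ⟨ih1, ih2⟩ := ih hw hc' g' r' t' k' rfl
        refine ⟨?_, ih2⟩
        intro i hi b hb
        rcases eq_or_lt_of_le hi with h3 | h3
        · have h4 : i = ⟨k.val, hk⟩ := Fin.ext h3.symm
          rw [← h4] at h2
          rw [hb] at h2
          exact hc i b (by simp [h2])
        · exact ih1 i (by omega) b hb
      · obtain ⟨ih1, ih2⟩ := ih hw hc' g' r' t' k' rfl
        refine ⟨fun i hi => absurd i.isLt (by omega), fun r'' h6 h7 => ?_⟩
        rcases eq_or_lt_of_le (show r'.val ≤ r'' by omega) with h8 | h8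
        · subst h8
          exact ⟨t', h5, fun i b hb => ih1 i (by omega) b hb⟩
        · exact ih2 r'' h8 h7

lemma layer_row (x : Fin n → Bool) (g : G) (r : Fin M) (t : T) :
    ∀ (d k : ℕ) (hk : k + d = n), (∀ i : Fin n, k ≤ i.val → ∀ b, τ g r t i = some b → x i = b) →
      ∃ ls, (layer M ok τ).Path (Sum.inr (g, r, t, ⟨k, by omega⟩)) ls
        (Sum.inr (g, r, t, Fin.last n)) ∧ Cons x ls := by
  intro d
  induction d with
  | zero =>
    intro k hk h
    have : (⟨k, by omega⟩ : Fin (n + 1)) = Fin.last n := Fin.ext (by simpa using hk)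
    rw [this]
    exact ⟨[], Path.nil _, fun i b hb => by simp at hb⟩
  | succ d ih =>
    intro k hk h
    obtain ⟨ls, hp, hc⟩ := ih (k + 1) (by omega) (fun i hi b hb => h i (by omega) b hb)
    have hkn : k < n := by omega
    refine ⟨(τ g r t ⟨k, hkn⟩).map (fun b => (⟨k, hkn⟩, b)) :: ls,
      Path.cons (v := Sum.inr (g, r, t, ⟨k + 1, by omega⟩))
        (Or.inl ⟨rfl, rfl, rfl, rfl, hkn, rfl⟩) hp, ?_⟩
    intro i b hb
    rw [List.mem_cons] at hb
    rcases hb with hb | hb
    · rcases h3 : τ g r t ⟨k, hkn⟩ with _ | b'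
      · rw [h3] at hb; simp at hb
      · rw [h3] at hb
        simp only [Option.map_some, Option.some.injEq, Prod.mk.injEq] at hb
        obtain ⟨rfl, rfl⟩ := hb
        exact h _ le_rfl _ h3
    · exact hc i b hb

lemma cons_append {x : Fin n → Bool} {ls ls' : List (Label n)} (h : Cons x ls)
    (h' : Cons x ls') : Cons x (ls ++ ls') := by
  intro i b hb
  rw [List.mem_append] at hb
  rcases hb with hb | hb
  · exact h i b hb
  · exact h' i b hb

lemma layer_rows (x : Fin n → Bool) (g : G) :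
    ∀ (d r : ℕ) (hr : r + 1 + d = M) (t : T),
      (∀ r', r < r' → r' < M → ∃ t', ok g r' t' ∧ Sat x (τ g r' t')) →
      ∃ ls, (layer M ok τ).Path (Sum.inr (g, ⟨r, by omega⟩, t, Fin.last n)) ls
        (Sum.inl 1) ∧ Cons x ls := by
  intro d
  induction d with
  | zero =>
    intro r hr t _
    refine ⟨[none], Path.cons (v := Sum.inl 1) ⟨rfl, rfl, by simpa using hr, rfl⟩ (Path.nil _), ?_⟩
    intro i b hb
    simp at hb
  | succ d ih =>
    intro r hr t h
    obtain ⟨t', h1, h2⟩ := h (r + 1) (by omega) (by omega)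
    obtain ⟨ls1, hp1, hc1⟩ := layer_row (ok := ok) (τ := τ) x g (⟨r + 1, by omega⟩ : Fin M) t' n 0
      (by omega) (fun i _ b hb => h2 i b hb)
    obtain ⟨ls2, hp2, hc2⟩ := ih (r + 1) (by omega) t' (fun r' h3 h4 => h r' (by omega) h4)
    refine ⟨none :: (ls1 ++ ls2), Path.cons
      (v := Sum.inr (g, (⟨r + 1, by omega⟩ : Fin M), t', ⟨0, by omega⟩))
      (Or.inr ⟨rfl, rfl, rfl, rfl, rfl, h1⟩) (path_append hp1 hp2), ?_⟩
    intro i b hb
    rw [List.mem_cons] at hb
    rcases hb with hb | hb
    · simp at hb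
    · exact cons_append hc1 hc2 i b hb

end

/-- Programs for functions of the form: for some `g`, for all `r < M`, the input satisfies one of
the terms of row `r`, where the terms of different rows have no variable in common. -/
theorem layered {M : ℕ} (hM : 0 < M) {G T : Type} [Fintype G] [Fintype T]
    (row : Fin n → ℕ) (ok : G → ℕ → T → Prop) (τ : G → ℕ → T → Term n)
    (hrow : ∀ g r t i, τ g r t i ≠ none → row i = r) (f : (Fin n → Bool) → Bool)
    (hf : ∀ x, f x = true ↔ ∃ g, ∀ r < M, ∃ t, ok g r t ∧ Sat x (τ g r t)) :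
    HasNBP n (Fintype.card G * (M * (Fintype.card T * (n + 1))) + 3) f := by
  refine ⟨_, inferInstance, layer M ok τ, acyclic_of_rank lrk lrk_lt, layer_readOnce row hrow,
    ?_, ?_⟩
  · intro x
    rw [hf]
    constructor
    · rintro ⟨g, hg⟩
      obtain ⟨t, h1, h2⟩ := hg 0 hM
      obtain ⟨ls1, hp1, hc1⟩ := layer_row (ok := ok) (τ := τ) x g (⟨0, hM⟩ : Fin M) t n 0
        (by omega) (fun i _ b hb => h2 i b hb)
      obtain ⟨ls2, hp2, hc2⟩ := layer_rows (ok := ok) (τ := τ) x g (M - 1) 0 (by omega) t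
        (fun r' _ h4 => hg r' h4)
      refine ⟨none :: (ls1 ++ ls2), Path.cons
        (v := Sum.inr (g, (⟨0, hM⟩ : Fin M), t, ⟨0, by omega⟩))
        (⟨rfl, rfl, rfl, rfl, h1⟩) (path_append hp1 hp2), ?_⟩
      intro i b hb
      rw [List.mem_cons] at hb
      rcases hb with hb | hb
      · simp at hb
      · exact cons_append hc1 hc2 i b hb
    · rintro ⟨ls, hp, hc⟩
      generalize hs : (layer M ok τ).source = s at hp
      generalize ha : (layer M ok τ).accept = a at hp
      cases hp with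
      | nil =>
        exfalso
        rw [← ha] at hs
        change (Sum.inl 0 : Fin 3 ⊕ (G × Fin M × T × Fin (n + 1))) = Sum.inl 1 at hs
        simp at hs
      | cons he hp' =>
        rename_i v l ls
        subst hs
        rcases v with s' | ⟨g, r, t, k⟩
        · exact absurd he id
        · obtain ⟨-, rfl, h1, h2, h3⟩ := he
          obtain ⟨h4, h5⟩ := layer_sound x hp' ha.symm
            (fun i b hb => hc i b (by simp [hb])) g r t k rfl
          refine ⟨g, fun r' hr' => ?_⟩
          rcases Nat.eq_zero_or_pos r' with rfl | h6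
          · refine ⟨t, h3, fun i b hb => h4 i (by omega) b ?_⟩
            rw [h1]; exact hb
          · exact h5 r' (by omega) hr'
  · simp only [Fintype.card_sum, Fintype.card_fin, Fintype.card_prod]
    omega

lemma HasNBP.mono {s s' : ℕ} {f : (Fin n → Bool) → Bool} (h : HasNBP n s f) (hs : s ≤ s') :
    HasNBP n s' f := by
  obtain ⟨V, hV, P, h1, h2, h3, h4⟩ := h
  exact ⟨V, hV, P, h1, h2, h3, h4.trans hs⟩

lemma HasDNF.mono {s s' : ℕ} {f : (Fin n → Bool) → Bool} (h : HasDNF n s f) (hs : s ≤ s') :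
    HasDNF n s' f := by
  obtain ⟨D, h1, h2⟩ := h
  exact ⟨D, h1.trans hs, h2⟩

/-- a DNF gives a nondeterministic read-once program -/
theorem HasDNF.nbp {m : ℕ} {f : (Fin n → Bool) → Bool} (h : HasDNF n m f) :
    HasNBP n (m * (n + 1) + 3) f := by
  obtain ⟨D, h1, h2⟩ := h
  have key := layered (n := n) (M := 1) (by norm_num) (G := Unit) (T := Fin D.length)
    (fun _ => 0) (fun _ r _ => r = 0) (fun _ r t => if r = 0 then D.get t else fun _ => none)
    (fun _ r t i h => by
      by_contra h3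
      exact h (by simp [Ne.symm h3])) f (fun x => by
      rw [h2]
      constructor
      · rintro ⟨t, ht, hs⟩
        obtain ⟨i, rfl⟩ := List.get_of_mem ht
        refine ⟨(), fun r hr => ?_⟩
        have : r = 0 := by omega
        subst this
        exact ⟨i, rfl, by simpa using hs⟩
      · rintro ⟨_, h⟩
        obtain ⟨t, _, hs⟩ := h 0 (by norm_num)
        exact ⟨D.get t, List.get_mem D t, by simpa using hs⟩)
  refine key.mono ?_
  simp only [Fintype.card_unit, one_mul, Fintype.card_fin]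
  have := Nat.mul_le_mul_right (n + 1) h1
  omega

end Pool.Agent.V7H75.RB
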